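import Mathlib

/-!
# Kronecker substitution: one evaluation decides coefficientwise inequalities

Polynomials in `n` variables of degree at most `2` in each variable, evaluated at
`y i = B ^ (3 ^ i)`.
-/

set_option autoImplicit false

namespace Pool.Agent.KR56

open MvPolynomial Finset

/-! ### Digits -/

theorem digits_unique (B : ℕ) (N : ℕ) : ∀ (c d : ℕ → ℕ), (∀ k, k < N → c k < B) →
    (∀ k, k < N → d k < B) → ∑ k ∈ range N, c k * B ^ k = ∑ k ∈ range N, d k * B ^ k →
    ∀ k, k < N → c k = d k := by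
  induction N with
  | zero => intro c d _ _ _ k hk; omega
  | succ N ih =>
    intro c d hc hd h
    rw [Finset.sum_range_succ', Finset.sum_range_succ'] at h
    simp only [pow_zero, mul_one, pow_succ] at h
    have hc' : ∑ k ∈ range N, c (k + 1) * (B ^ k * B) = (∑ k ∈ range N, c (k + 1) * B ^ k) * B := by
      rw [Finset.sum_mul]; exact Finset.sum_congr rfl fun k _ => by ring
    have hd' : ∑ k ∈ range N, d (k + 1) * (B ^ k * B) = (∑ k ∈ range N, d (k + 1) * B ^ k) * B := by
      rw [Finset.sum_mul]; exact Finset.sum_congr rfl fun k _ => by ring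
    rw [hc', hd'] at h
    have h0 : c 0 < B := hc 0 (by omega)
    have h0' : d 0 < B := hd 0 (by omega)
    have hB : 0 < B := by omega
    have e0 : c 0 = d 0 := by
      have := congrArg (· % B) h
      simp only [Nat.mul_add_mod_self_right] at this
      rw [Nat.mod_eq_of_lt h0, Nat.mod_eq_of_lt h0'] at this
      exact this
    have e1 : ∑ k ∈ range N, c (k + 1) * B ^ k = ∑ k ∈ range N, d (k + 1) * B ^ k := by
      have := h
      rw [e0] at this
      exact Nat.eq_of_mul_eq_mul_right hB (by omega)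
    have := ih (fun k => c (k + 1)) (fun k => d (k + 1)) (fun k hk => hc _ (by omega))
      (fun k hk => hd _ (by omega)) e1
    intro k hk
    cases k with
    | zero => exact e0
    | succ k => exact this k (by omega)

/-- `∑ k < N, B ^ k` -/
def geo (B N : ℕ) : ℕ := ∑ k ∈ range N, B ^ k

theorem geo_eq (B N : ℕ) (hB : 2 ≤ B) : geo B N = (B ^ N - 1) / (B - 1) := by
  unfold geo
  rw [Nat.geomSum_eq hB]

/-- digits with a vanishing top bit -/
theorem digits_of_land (b : ℕ) (N : ℕ) : ∀ R : ℕ, R < (2 ^ (b + 1)) ^ N →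
    Nat.land R (2 ^ b * geo (2 ^ (b + 1)) N) = 0 →
    ∃ r : ℕ → ℕ, (∀ k, r k < 2 ^ b) ∧ R = ∑ k ∈ range N, r k * (2 ^ (b + 1)) ^ k := by
  induction N with
  | zero =>
    intro R hR _
    refine ⟨fun _ => 0, fun _ => by positivity, ?_⟩
    simpa using hR
  | succ N ih =>
    intro R hR h
    set B := 2 ^ (b + 1) with hB
    have hBpos : 0 < B := by positivity
    have hmask : 2 ^ b * geo B (N + 1) = B * (2 ^ b * geo B N) + 2 ^ b := by
      unfold geo
      rw [Finset.sum_range_succ']
      simp only [pow_zero, pow_succ]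
      rw [mul_add, mul_one, ← Finset.sum_mul]
      ring
    have hR' : R = B * (R / B) + R % B := (Nat.div_add_mod R B).symm
    have hm : R % B < B := Nat.mod_lt _ hBpos
    have h2b : 2 ^ b < B := by rw [hB]; exact Nat.pow_lt_pow_right (by norm_num) (by omega)
    have key : ∀ j, ((R % B) &&& 2 ^ b).testBit j = false := by
      intro j
      by_cases hj : j < b + 1
      · have h1 : (R &&& (2 ^ b * geo B (N + 1))).testBit j = false := by
          have : R &&& (2 ^ b * geo B (N + 1)) = 0 := h
          rw [this]; simp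
        rw [Nat.testBit_land, hmask] at h1
        rw [hR'] at h1
        rw [hB] at h1 hm h2b
        rw [Nat.testBit_two_pow_mul_add _ hm, Nat.testBit_two_pow_mul_add _ h2b, if_pos hj, if_pos hj,
          ← Nat.testBit_land] at h1
        exact h1
      · apply Nat.testBit_lt_two_pow
        calc (R % B) &&& 2 ^ b ≤ R % B := Nat.and_le_left
          _ < 2 ^ (b + 1) := hm
          _ ≤ 2 ^ j := Nat.pow_le_pow_right (by norm_num) (by omega)
    have key2 : (R / B) &&& (2 ^ b * geo B N) = 0 := by
      apply Nat.eq_of_testBit_eq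
      intro j
      have h1 : (R &&& (2 ^ b * geo B (N + 1))).testBit (j + (b + 1)) = false := by
        have : R &&& (2 ^ b * geo B (N + 1)) = 0 := h
        rw [this]; simp
      rw [Nat.testBit_land, hmask] at h1
      rw [hR'] at h1
      rw [hB] at h1 hm h2b
      rw [Nat.testBit_two_pow_mul_add _ hm, Nat.testBit_two_pow_mul_add _ h2b,
        if_neg (by omega), if_neg (by omega)] at h1
      simp only [Nat.add_sub_cancel] at h1
      rw [Nat.testBit_land, h1]
      simp
    have hlow : R % B < 2 ^ b := by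
      have h1 : (R % B) &&& 2 ^ b = 0 := by
        apply Nat.eq_of_testBit_eq
        intro j
        rw [key j]; simp
      have h2 : (R % B).testBit b = false := by
        have := congrArg (fun x => Nat.testBit x b) h1
        simpa [Nat.testBit_land, Nat.testBit_two_pow_self] using this
      by_contra hcon
      push Not at hcon
      have h3 : (R % B).testBit b = true := by
        rw [Nat.testBit_eq_decide_div_mod_eq]
        have h4 : (R % B) / 2 ^ b = 1 := by
          apply Nat.div_eq_of_lt_le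
          · simpa using hcon
          · calc R % B < 2 ^ (b + 1) := hm
              _ = (1 + 1) * 2 ^ b := by ring
        rw [h4]; decide
      rw [h2] at h3
      exact absurd h3 (by decide)
    have hdiv : R / B < B ^ N := by
      rw [Nat.div_lt_iff_lt_mul hBpos, ← pow_succ]
      exact hR
    obtain ⟨r, hr1, hr2⟩ := ih (R / B) hdiv key2
    refine ⟨fun k => if k = 0 then R % B else r (k - 1), ?_, ?_⟩
    · intro k
      dsimp only
      split_ifs
      · exact hlow
      · exact hr1 _
    · rw [Finset.sum_range_succ']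
      simp only [Nat.add_eq_zero_iff, one_ne_zero, and_false, if_false, Nat.add_sub_cancel, if_true,
        pow_zero, mul_one]
      conv_lhs => rw [hR', hr2]
      rw [Finset.mul_sum]
      congr 1
      exact Finset.sum_congr rfl fun k _ => by ring

/-- comparison of two digit sums -/
theorem digits_le (b N : ℕ) (c d : ℕ → ℕ) (hc : ∀ k, k < N → c k < 2 ^ (b + 1))
    (hd : ∀ k, k < N → d k < 2 ^ b)
    (h1 : ∑ k ∈ range N, d k * (2 ^ (b + 1)) ^ k ≤ ∑ k ∈ range N, c k * (2 ^ (b + 1)) ^ k)
    (h2 : Nat.land (∑ k ∈ range N, c k * (2 ^ (b + 1)) ^ k - ∑ k ∈ range N, d k * (2 ^ (b + 1)) ^ k)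
      (2 ^ b * geo (2 ^ (b + 1)) N) = 0) :
    ∀ k, k < N → d k ≤ c k := by
  set B := 2 ^ (b + 1) with hB
  have hlt : ∑ k ∈ range N, c k * B ^ k < B ^ N := by
    have hB1 : 1 ≤ B := Nat.one_le_two_pow
    have : ∀ N, (∀ k, k < N → c k < B) → ∑ k ∈ range N, c k * B ^ k < B ^ N := by
      intro N
      induction N with
      | zero => intro _; simp
      | succ N ih =>
        intro hc
        rw [Finset.sum_range_succ, pow_succ]
        have h3 := ih fun k hk => hc k (by omega)
        have h4 := hc N (by omega)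
        calc _ < B ^ N + c N * B ^ N := by omega
          _ = (c N + 1) * B ^ N := by ring
          _ ≤ B * B ^ N := Nat.mul_le_mul_right _ h4
          _ = B ^ N * B := by ring
    exact this N hc
  obtain ⟨r, hr1, hr2⟩ := digits_of_land b N _ (lt_of_le_of_lt (Nat.sub_le _ _) hlt) h2
  have h3 : ∑ k ∈ range N, c k * B ^ k = ∑ k ∈ range N, (d k + r k) * B ^ k := by
    have : ∑ k ∈ range N, (d k + r k) * B ^ k =
        ∑ k ∈ range N, d k * B ^ k + ∑ k ∈ range N, r k * B ^ k := by
      rw [← Finset.sum_add_distrib]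
      exact Finset.sum_congr rfl fun k _ => by ring
    rw [this, ← hr2]
    omega
  have h4 := digits_unique B N c (fun k => d k + r k) hc
    (fun k hk => by
      have := hd k hk; have := hr1 k
      have : 2 ^ (b + 1) = 2 ^ b + 2 ^ b := by ring
      rw [hB]; omega) h3
  intro k hk
  have := h4 k hk
  omega

/-! ### Ternary numbering of the monomials -/

variable {n : ℕ}

/-- the exponent vector with digits `f` -/
noncomputable def ex (f : Fin n → Fin 3) : Fin n →₀ ℕ :=
  Finsupp.equivFunOnFinite.symm (fun i => ((f i : Fin 3) : ℕ))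

@[simp] theorem ex_apply (f : Fin n → Fin 3) (i : Fin n) : ex f i = (f i : ℕ) := rfl

theorem ex_injective : Function.Injective (ex (n := n)) := by
  intro f g h
  funext i
  apply Fin.ext
  have := DFunLike.congr_fun h i
  simpa using this

/-- coefficient number `k` -/
noncomputable def cf {R : Type*} [CommSemiring R] (P : MvPolynomial (Fin n) R) (k : ℕ) : R :=
  if h : k < 3 ^ n then coeff (ex (finFunctionFinEquiv.symm ⟨k, h⟩)) P else 0

/-- the Kronecker point -/
def kp (n : ℕ) (B : ℕ) : Fin n → ℕ := fun i => B ^ (3 ^ (i : ℕ))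

theorem exists_ex (m : Fin n →₀ ℕ) (hm : ∀ i, m i ≤ 2) : ∃ f : Fin n → Fin 3, m = ex f := by
  refine ⟨fun i => ⟨m i, by have := hm i; omega⟩, ?_⟩
  ext i
  simp

theorem coeff_eq_zero_of_deg {R : Type*} [CommSemiring R] (P : MvPolynomial (Fin n) R)
    (hP : ∀ i, degreeOf i P ≤ 2) (m : Fin n →₀ ℕ) (i : Fin n) (hm : 2 < m i) : coeff m P = 0 := by
  by_contra h
  have h1 : m ∈ P.support := mem_support_iff.2 h
  have h2 := monomial_le_degreeOf i h1
  have := hP i
  omega

theorem eval_kp (B : ℕ) (P : MvPolynomial (Fin n) ℕ) (hP : ∀ i, degreeOf i P ≤ 2) :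
    eval (kp n B) P = ∑ k ∈ range (3 ^ n), cf P k * B ^ k := by
  rw [eval_eq']
  have h1 : ∑ d ∈ P.support, coeff d P * ∏ i, kp n B i ^ d i =
      ∑ f : Fin n → Fin 3, coeff (ex f) P * B ^ (∑ i, (f i : ℕ) * 3 ^ (i : ℕ)) := by
    have h2 : ∑ d ∈ P.support, coeff d P * ∏ i, kp n B i ^ d i =
        ∑ d ∈ Finset.univ.image (ex (n := n)), coeff d P * ∏ i, kp n B i ^ d i := by
      apply Finset.sum_subset
      · intro m hm
        have h3 : ∀ i, m i ≤ 2 := fun i => (monomial_le_degreeOf i hm).trans (hP i)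
        obtain ⟨f, rfl⟩ := exists_ex m h3
        exact Finset.mem_image_of_mem _ (Finset.mem_univ f)
      · intro m _ hm
        rw [notMem_support_iff.1 hm, zero_mul]
    rw [h2, Finset.sum_image fun f _ g _ h => ex_injective h]
    refine Finset.sum_congr rfl fun f _ => ?_
    congr 1
    rw [← Finset.prod_pow_eq_pow_sum]
    refine Finset.prod_congr rfl fun i _ => ?_
    rw [kp, ex_apply, ← pow_mul, mul_comm]
  rw [h1, Finset.sum_range]
  rw [← finFunctionFinEquiv.symm.sum_comp]
  refine Finset.sum_congr rfl fun k _ => ?_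
  have h3 : (∑ i, ((finFunctionFinEquiv.symm k : Fin n → Fin 3) i : ℕ) * 3 ^ (i : ℕ)) = (k : ℕ) := by
    rw [← finFunctionFinEquiv_apply, Equiv.apply_symm_apply]
  rw [h3]
  congr 1
  rw [cf, dif_pos k.2]

theorem coeff_le_of_cf (P Q : MvPolynomial (Fin n) ℕ) 
    (hQ : ∀ i, degreeOf i Q ≤ 2) (h : ∀ k, k < 3 ^ n → cf Q k ≤ cf P k) (m : Fin n →₀ ℕ) :
    coeff m Q ≤ coeff m P := by
  by_cases hm : ∀ i, m i ≤ 2
  · obtain ⟨f, rfl⟩ := exists_ex m hm
    have h1 := h (finFunctionFinEquiv f) (finFunctionFinEquiv f).2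
    rw [cf, cf, dif_pos (finFunctionFinEquiv f).2, dif_pos (finFunctionFinEquiv f).2] at h1
    have e1 : finFunctionFinEquiv.symm (⟨(finFunctionFinEquiv f : Fin (3 ^ n)), (finFunctionFinEquiv f).2⟩ :
        Fin (3 ^ n)) = f := finFunctionFinEquiv.symm_apply_apply f
    rw [e1] at h1
    exact h1
  · push Not at hm
    obtain ⟨i, hi⟩ := hm
    rw [coeff_eq_zero_of_deg Q hQ m i hi]
    exact Nat.zero_le _

theorem coeff_le_eval_one (P : MvPolynomial (Fin n) ℕ) (m : Fin n →₀ ℕ) :
    coeff m P ≤ eval (fun _ => 1) P := by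
  rw [eval_eq']
  simp only [one_pow, Finset.prod_const_one, mul_one]
  by_cases h : m ∈ P.support
  · exact Finset.single_le_sum (f := fun d => coeff d P) (fun _ _ => Nat.zero_le _) h
  · rw [notMem_support_iff.1 h]
    exact Nat.zero_le _

theorem aeval_mono (P Q : MvPolynomial (Fin n) ℕ) (h : ∀ m, coeff m Q ≤ coeff m P)
    {R : Type*} [CommSemiring R] [PartialOrder R] [IsOrderedRing R]
    (y : Fin n → R) (hy : ∀ i, 0 ≤ y i) :
    eval₂ (Nat.castRingHom R) y Q ≤ eval₂ (Nat.castRingHom R) y P := by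
  have h1 : P = Q + ∑ m ∈ P.support, monomial m (coeff m P - coeff m Q) := by
    ext m
    rw [coeff_add, coeff_sum]
    simp only [coeff_monomial]
    by_cases hm : m ∈ P.support
    · rw [Finset.sum_ite_eq' P.support m, if_pos hm]
      have := h m
      omega
    · rw [Finset.sum_ite_eq' P.support m, if_neg hm]
      have := h m
      rw [notMem_support_iff.1 hm] at this ⊢
      omega
  conv_rhs => rw [h1]
  rw [eval₂_add, eval₂_sum]
  apply le_add_of_nonneg_right
  apply Finset.sum_nonneg
  intro m _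
  rw [eval₂_monomial]
  apply mul_nonneg
  · simp
  · rw [Finsupp.prod]
    exact Finset.prod_nonneg fun i _ => pow_nonneg (hy i) _

/-- THE TEST. `P`, `Q` of degree at most `2` in each variable, coefficient sums below `2 ^ (b+1)`
and `2 ^ b`; one subtraction and one `land` at the Kronecker point. -/
theorem le_of_land (b : ℕ) (P Q : MvPolynomial (Fin n) ℕ) (hP : ∀ i, degreeOf i P ≤ 2)
    (hQ : ∀ i, degreeOf i Q ≤ 2) (hP1 : eval (fun _ => 1) P < 2 ^ (b + 1))
    (hQ1 : eval (fun _ => 1) Q < 2 ^ b)
    (h1 : eval (kp n (2 ^ (b + 1))) Q ≤ eval (kp n (2 ^ (b + 1))) P)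
    (h2 : Nat.land (eval (kp n (2 ^ (b + 1))) P - eval (kp n (2 ^ (b + 1))) Q)
      (2 ^ b * geo (2 ^ (b + 1)) (3 ^ n)) = 0) (m : Fin n →₀ ℕ) : coeff m Q ≤ coeff m P := by
  rw [eval_kp _ P hP, eval_kp _ Q hQ] at h1 h2
  refine coeff_le_of_cf P Q hQ ?_ m
  refine digits_le b (3 ^ n) (cf P) (cf Q) ?_ ?_ h1 h2
  · intro k hk
    rw [cf, dif_pos hk]
    exact (coeff_le_eval_one _ _).trans_lt hP1
  · intro k hk
    rw [cf, dif_pos hk]
    exact (coeff_le_eval_one _ _).trans_lt hQ1

end Pool.Agent.KR56
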